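import Mathlib
import Pool.Agent.N870.RG.Fin

/-!
# Ranks over multiquadratic fields in pencils of elliptic curves at almost prime arguments

`W_t : y² = x³ + A(t) x + B(t) = (x - e₁(t)) (x - e₂(t)) (x - e₃(t))` with polynomials `e_i` such
that `e₂ - e₁ = D₀ u₀`, `e₃ - e₁ = D₀ u₁`, `e₂ - e₃ = D₀ u₂`, where `u_k` is a constant times
a product of `n_k` irreducible polynomials, these `n₀ + n₁ + n₂` irreducible polynomials being
pairwise different, and `D₀` is any nonzero polynomial not divisible by one of them. The curve `W_t`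
is considered over the field `F_t = ℚ(√D₁(t), ..., √D_r(t))`, for arbitrary nonzero polynomials
`D_i` not divisible by one of these polynomials. For a set `T` of indices let `s_k(T)` be the number
of the irreducible factors of `u_k` at which the twist of the family by `∏_{i ∈ T} D_i` has split
multiplicative reduction, and assume that `2 n_k + s_k(T) ≤ n₀ + n₁ + n₂` for all `k` and `T`.

Let `G₀, ..., G_g` be a system of polynomials as in the conjecture of Schinzel (irreducible, with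
positive leading coefficients, without a fixed prime divisor), prime to the `D_i` and the `u_k`.  In
every interval `(X, X + Y]` with `X ^ θ ≤ Y ≤ X` there are at least `κ Y / (log X) ^ (g + 1)` integers
`t` for which all the values `G_i(t)` have at most `k` prime factors, and the average of
`2 ^ ((rank W_t(F_t) + corank of the 2-primary part of Ш(W_t / F_t)) / 2 ^ r)` over these `t` is
bounded; so at most the proportion `C / 2 ^ (m / 2 ^ r)` of these curves has rank `≥ m` over `F_t`.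
If the `D_i` are constants, `F = F_t` is a fixed number field, any given multiquadratic field.

(The theorem was written for `MP_78d38b_nt` by helper870 and moved here.)
-/

set_option autoImplicit false

namespace Pool.Agent.Results.MP_7cad78_nt.AlmostPrimePencils

open Finset Polynomial

open Pool.Agent.TH841.NF.D (HasDiv crk rk)

/-- the curve `y² = x³ + A x + B` over `F` -/
def EF (A B : ℤ) (F : Type) [Field F] : WeierstrassCurve F := ⟨0, 0, 0, (A : F), (B : F)⟩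

/-- the number field `F` is generated by square roots of the integers `d i` -/
def Gen (F : Type) [Field F] [NumberField F] {r : ℕ} (d : Fin r → ℤ) : Prop :=
  ∃ x : Fin r → F, (∀ i, x i ^ 2 = (d i : F)) ∧
    IntermediateField.adjoin ℚ (Set.range x) = ⊤

/-- `u_k = a_k ∏ f_{k,i}` -/
noncomputable def u {n : Fin 3 → ℕ} (a : Fin 3 → ℤ) (f : ∀ k : Fin 3, Fin (n k) → ℤ[X])
    (k : Fin 3) : ℤ[X] := C (a k) * ∏ i, f k i

/-- `v` is a square modulo `f`, over the rationals -/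
def SqMod (f v : ℤ[X]) : Prop := ∃ q : ℚ[X], f.map (Int.castRingHom ℚ) ∣
  (q ^ 2 - v.map (Int.castRingHom ℚ))

/-- modulo a factor `f` of `u_k`, the curve `y² = x (x - D u₀) (x - D u₁)` has a node whose tangent
directions are the square roots of `v_k`; so the reduction at `f` is split if and only if `v_k` is a
square modulo `f` -/
noncomputable def v {n : Fin 3 → ℕ} (D : ℤ[X]) (a : Fin 3 → ℤ)
    (f : ∀ k : Fin 3, Fin (n k) → ℤ[X]) : Fin 3 → ℤ[X] :=
  ![-(D * u a f 1), -(D * u a f 0), D * u a f 0]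

open Classical in
/-- the number of the factors of `u_k` at which `y² = x (x - D u₀) (x - D u₁)` has split
multiplicative reduction -/
noncomputable def s {n : Fin 3 → ℕ} (D : ℤ[X]) (a : Fin 3 → ℤ)
    (f : ∀ k : Fin 3, Fin (n k) → ℤ[X]) (k : Fin 3) : ℕ :=
  (univ.filter (fun i => SqMod (f k i) (v D a f k))).card

/-- all the values `G_i(t)` have at most `k` prime factors, counted with multiplicity, and all these
prime factors are larger than `t ^ (1 / k)` -/
def AlmostPrime {g : ℕ} (G : Fin g → ℤ[X]) (k : ℕ) (t : ℤ) : Prop :=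
  ∀ i, ArithmeticFunction.cardFactors ((G i).eval t).natAbs ≤ k ∧
    ∀ p : ℕ, p.Prime → (p : ℤ) ∣ (G i).eval t → (t : ℝ) ^ (1 / (k : ℝ)) < (p : ℝ)

open Classical in
/-- the integers `t` with `X < t ≤ X + Y` that are not zeros of the polynomials and for which all the
`G_i(t)` are almost primes -/
noncomputable def Par {n : Fin 3 → ℕ} {r g : ℕ} (a : Fin 3 → ℤ)
    (f : ∀ k : Fin 3, Fin (n k) → ℤ[X]) (D₀ : ℤ[X]) (D : Fin r → ℤ[X]) (G : Fin g → ℤ[X])
    (k X Y : ℕ) : Finset ℤ :=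
  (Ioc (X : ℤ) (X + Y)).filter (fun t => ((∀ k, (D₀ * u a f k).eval t ≠ 0) ∧
    ∀ i, (D i).eval t ≠ 0) ∧ AlmostPrime G k t)

open Classical in
/-- **Theorem.** Let `u_k = a_k ∏_{i < n_k} f_{k,i}`, `k = 0, 1, 2`, be polynomials with integer
coefficients with `u₀ - u₁ = u₂`, where `a_k ≠ 0` and the `n₀ + n₁ + n₂` polynomials `f_{k,i}` are
irreducible of positive degree and pairwise non-associated, let `D₀`, ..., `D_r` be nonzero
polynomials with integer coefficients not divisible by any `f_{k,i}`, and `A`, `B`, `e₁`, `e₂`, `e₃`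
polynomials with integer coefficients such that `x³ + A x + B = (x - e₁) (x - e₂) (x - e₃)`,
`e₂ - e₁ = D₀ u₀` and `e₃ - e₁ = D₀ u₁`. Assume that `2 n_k + s_k(T) ≤ n₀ + n₁ + n₂` for all `k` and
all `T ⊆ {1, ..., r}`, where `s_k(T)` is the number of the `i` such that the twist by
`D₀ ∏_{l ∈ T} D_l` of `y² = x (x - u₀) (x - u₁)` has split multiplicative reduction at `f_{k,i}`. Let
`G₀, ..., G_g` be pairwise non-associated irreducible polynomials of positive degree with positive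
leading coefficients, without a fixed prime divisor, that divide none of `D₀`, ..., `D_r` and are not
associated to any `f_{k,i}`. For `0 < θ ≤ 1` and all large `k` there are `κ > 0`, `C` and `X₀` such
that for `X ≥ X₀` and `X ^ θ ≤ Y ≤ X` and the set `P` of the `t` with `X < t ≤ X + Y`, not zeros of
the polynomials, for which all the `G_i(t)` have at most `k` prime factors, all larger than
`t ^ (1 / k)`: the set `P` has at least `κ Y / (log X) ^ (g + 1)` elements, and with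
`F t = ℚ(√D₁(t), ..., √D_r(t))`, `W t : y² = x³ + A(t) x + B(t)` over `F t` and
`ρ t = rank W_t(F_t) + corank Ш(W_t / F_t)[2^∞]` the average of `2 ^ (ρ t / 2 ^ r)` over `P` is at
most `C`, and at most the proportion `C / 2 ^ (m / 2 ^ r)` of the `t` in `P` have `ρ t ≥ m`. -/
theorem result (n : Fin 3 → ℕ) (r : ℕ) (a : Fin 3 → ℤ) (f : ∀ k : Fin 3, Fin (n k) → ℤ[X])
    (ha : ∀ k, a k ≠ 0) (hf : ∀ k i, Irreducible (f k i) ∧ 0 < (f k i).natDegree)
    (hf' : ∀ k i l j, (⟨k, i⟩ : Σ k : Fin 3, Fin (n k)) ≠ ⟨l, j⟩ → ¬ Associated (f k i) (f l j))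
    (hu : u a f 0 - u a f 1 = u a f 2)
    (D₀ : ℤ[X]) (hD₀ : D₀ ≠ 0) (hDf₀ : ∀ k i, ¬ f k i ∣ D₀)
    (D : Fin r → ℤ[X]) (hD : ∀ l, D l ≠ 0) (hDf : ∀ l k i, ¬ f k i ∣ D l)
    (hs : ∀ (T : Finset (Fin r)) (k : Fin 3),
      2 * n k + s (D₀ * ∏ i ∈ T, D i) a f k ≤ n 0 + n 1 + n 2)
    (A B e₁ e₂ e₃ : ℤ[X])
    (he : ∀ t x : ℤ, x ^ 3 + A.eval t * x + B.eval t =
      (x - e₁.eval t) * (x - e₂.eval t) * (x - e₃.eval t))
    (h12 : e₂ - e₁ = D₀ * u a f 0) (h13 : e₃ - e₁ = D₀ * u a f 1)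
    (g : ℕ) (G : Fin (g + 1) → ℤ[X])
    (hG : ∀ i, Irreducible (G i) ∧ 0 < (G i).natDegree ∧ 0 < (G i).leadingCoeff)
    (hG' : ∀ i j, i ≠ j → ¬ Associated (G i) (G j))
    (hfix : ∀ p : ℕ, p.Prime → ∃ m : ℕ, ∀ i, ¬ (p : ℤ) ∣ (G i).eval (m : ℤ))
    (hGf : ∀ i k j, ¬ Associated (f k j) (G i)) (hGD₀ : ∀ i, ¬ G i ∣ D₀)
    (hGD : ∀ l i, ¬ G i ∣ D l) (θ : ℝ) (hθ : 0 < θ) (hθ1 : θ ≤ 1) :
    ∃ k₀ : ℕ, 2 ≤ k₀ ∧ ∀ k : ℕ, k₀ ≤ k → ∃ (κ C : ℝ) (X₀ : ℕ), 0 < κ ∧ ∀ X : ℕ, X₀ ≤ X →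
      ∀ Y : ℕ, (X : ℝ) ^ θ ≤ Y → Y ≤ X →
      κ * (Y / (Real.log X) ^ (g + 1)) ≤ ((Par a f D₀ D G k X Y).card : ℝ) ∧
      ∀ (F : ℤ → Type) [∀ t, Field (F t)] [∀ t, NumberField (F t)],
      (∀ t ∈ Par a f D₀ D G k X Y, Gen (F t) (fun i => (D i).eval t)) →
      ∀ W : ∀ t, WeierstrassCurve (F t), (∀ t, W t = EF (A.eval t) (B.eval t) (F t)) →
      (∀ t ∈ Par a f D₀ D G k X Y, BddAbove {q | HasDiv (W t) q}) ∧
      ∑ t ∈ Par a f D₀ D G k X Y, ((2 : ℝ) ^ (rk (W t) + crk (W t))) ^ ((1 : ℝ) / 2 ^ r) ≤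
        C * (Par a f D₀ D G k X Y).card ∧
      ∀ m : ℕ, (((Par a f D₀ D G k X Y).filter (fun t => m ≤ rk (W t) + crk (W t))).card : ℝ) ≤
        C * (Par a f D₀ D G k X Y).card / ((2 : ℝ) ^ m) ^ ((1 : ℝ) / 2 ^ r) := by
  have hirr : Pool.Agent.TH841.PT.Irr (Pool.Agent.TH841.TR.fp f) :=
    ⟨fun x => (hf x.1 x.2).1, fun x => (hf x.1 x.2).2, fun x y hxy => hf' x.1 x.2 y.1 y.2 hxy⟩
  have hB : ∀ T : Finset (Fin r), Pool.Agent.TH841.TR.Bal (D₀ * ∏ i ∈ T, D i) a f := fun T =>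
    Pool.Agent.TH841.TR.bal_of (v := v (D₀ * ∏ i ∈ T, D i) a f) rfl rfl rfl (hs T)
  have hSys : Pool.Agent.W123.RU.Poly.Sys G := by
    refine ⟨fun i => (hG i).1, fun i => (hG i).2.1, fun i => (hG i).2.2, ?_, hfix⟩
    intro i j hij
    by_contra hne
    exact hG' i j hne (hij ▸ Associated.refl _)
  obtain ⟨k₀, hk₀, h1⟩ := Pool.Agent.TH841.TR.N870.penF_alp Pool.Agent.TH841.TR.tav3x
    Pool.Agent.TH841.TR.tav3xg hSys hG' a f ha hirr hu hGf r D₀ hD₀ hDf₀ hGD₀
    D hD hDf hGD A B e₁ e₂ e₃ he h12 h13 hB θ hθ hθ1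
  refine ⟨k₀, hk₀, fun k hk => ?_⟩
  obtain ⟨κ, C, X₀, hκ, h2⟩ := h1 k hk
  exact ⟨κ, C, X₀, hκ, fun X hX Y hXY hYX => h2 X hX Y hXY hYX _ rfl⟩

end Pool.Agent.Results.MP_7cad78_nt.AlmostPrimePencils
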