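import Pool.Agent.N430.BP.NF4

/-!
# The original products of Birch and Swinnerton-Dyer for almost all elliptic curves over a number field

Let `K` be a number field of degree `n` with a basis `B_1, …, B_n` of the ring of integers.  For
`α, β ∈ 𝓞 K` let `E_{α,β}` be the curve `y² = x³ + α x + β` over `K`.  The conjecture of Birch and
Swinnerton-Dyer in its original form predicts the growth of the product of the numbers
`#E(𝓞 K ⧸ v) / N v` over the prime ideals `v` with `N v ≤ x`, the inverse of the truncated Euler product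
at the central point `s = 1`, in terms of the rank of `E(K)`.

The theorem: let the coordinates of `(α, β)` with respect to the basis run over an arbitrary box of
dimension `2 n` with sides `N`.  Then for almost all members of the box this product is
`(log x)^(1/2 + o(1))`, for *all* `x` up to a power of `N`, with an explicit error term and with a bound
for the number of the exceptions.  The product is taken over all prime ideals, of all degrees, including
the ramified ones and those of bad reduction.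
-/

set_option autoImplicit false

namespace Pool.Agent.Results.MP_7cad78_nt.OriginalProductsNumberFields

open NumberField IsDedekindDomain

/-- The number of the points of the projective curve `y² = x³ + α x + β` over the residue field of the
nonzero prime ideal `v`: the affine points and one point at infinity. -/
noncomputable def pointCount {K : Type} [Field K] [NumberField K] (v : HeightOneSpectrum (𝓞 K))
    (α β : 𝓞 K) : ℕ :=
  Nat.card {P : (𝓞 K ⧸ v.asIdeal) × (𝓞 K ⧸ v.asIdeal) //
    P.2 ^ 2 = P.1 ^ 3 + Ideal.Quotient.mk v.asIdeal α * P.1 + Ideal.Quotient.mk v.asIdeal β} + 1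

/-- The prime ideals of norm at most `x`. -/
def primesUpTo (K : Type) [Field K] [NumberField K] (x : ℕ) : Set (HeightOneSpectrum (𝓞 K)) :=
  {v | Ideal.absNorm v.asIdeal ≤ x}

/-- The product of the numbers `#E(𝓞 K ⧸ v) / N v` over the prime ideals of norm at most `x`. -/
noncomputable def originalProduct {K : Type} [Field K] [NumberField K] (α β : 𝓞 K) (x : ℕ) : ℝ :=
  ∏ᶠ v ∈ primesUpTo K x, ((pointCount v α β : ℝ) / Ideal.absNorm v.asIdeal)

/-- **The original products of Birch and Swinnerton-Dyer for almost all elliptic curves over a number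
field.** -/
theorem result (K : Type) [Field K] [NumberField K] {n : ℕ} (B : Module.Basis (Fin n) ℤ (𝓞 K)) :
    -- the definitions make sense
    (∀ x : ℕ, (primesUpTo K x).Finite) ∧ (∀ (α β : 𝓞 K) (x : ℕ), 0 < originalProduct α β x) ∧
    (∀ (v : HeightOneSpectrum (𝓞 K)) (α β : 𝓞 K),
      Finite {P : (𝓞 K ⧸ v.asIdeal) × (𝓞 K ⧸ v.asIdeal) //
        P.2 ^ 2 = P.1 ^ 3 + Ideal.Quotient.mk v.asIdeal α * P.1 + Ideal.Quotient.mk v.asIdeal β}) ∧
    -- the law
    ∀ ε A : ℝ, 0 < ε → 0 < A → ∃ (k : ℕ) (C : ℝ), 0 < k ∧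
      ∀ N : ℕ, 0 < N → ∀ U : Fin n → ℤ × ℤ, ∀ l : ℝ, 1 ≤ l →
        ({z : Fin n → ℤ × ℤ | (∀ j, (U j).1 < (z j).1 ∧ (z j).1 ≤ (U j).1 + N ∧
            (U j).2 < (z j).2 ∧ (z j).2 ≤ (U j).2 + N) ∧
          ∃ x : ℕ, 16 ≤ x ∧ x ^ k ≤ N ∧
            l * Real.log (Real.log x) ^ (1 / 2 : ℝ) *
              (1 + Real.log (Real.log (Real.log x))) ^ ε <
              |Real.log (originalProduct (∑ j, (z j).1 • B j) (∑ j, (z j).2 • B j) x) -
                1 / 2 * Real.log (Real.log x)|}.ncard : ℝ) ≤
          C * l ^ (-A) * (N : ℝ) ^ (2 * n) := by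
  classical
  have hfac : ∀ (v : HeightOneSpectrum (𝓞 K)) (α β : 𝓞 K),
      0 < (pointCount v α β : ℝ) / Ideal.absNorm v.asIdeal := by
    intro v α β
    have h1 : 0 < pointCount v α β := Nat.succ_pos _
    have h2 : 0 < Ideal.absNorm v.asIdeal := by
      have h3 := (Pool.Agent.H921R2.TatePole.nm_eq v).1
      have h4 : Ideal.absNorm v.asIdeal = _ := h3
      rw [h4]
      exact pow_pos (Pool.Agent.H921R2.TatePole.below v).2.pos _
    positivity
  have hprod : ∀ (α β : 𝓞 K) (x : ℕ), originalProduct α β x =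
      ∏ v ∈ Pool.Agent.N430.BP.Tx K x, ((pointCount v α β : ℝ) / Ideal.absNorm v.asIdeal) := by
    intro α β x
    unfold originalProduct
    have hfin : (primesUpTo K x).Finite := Pool.Agent.N430.BP.fin_T K x
    rw [finprod_mem_eq_finite_toFinset_prod _ hfin]
    rfl
  refine ⟨fun x => Pool.Agent.N430.BP.fin_T K x, fun α β x => ?_, fun v α β => ?_, ?_⟩
  · rw [hprod]
    exact Finset.prod_pos fun v _ => hfac v α β
  · have := Pool.Agent.N430.BP.fin_res v
    infer_instance
  intro ε A hε hA
  obtain ⟨k, C, hk, hmain⟩ := Pool.Agent.N430.BP.main_nf B hε hA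
  refine ⟨k, C, hk, fun N hN U l hl => ?_⟩
  refine le_trans ?_ (hmain N hN U l hl)
  have hlog : ∀ (α β : 𝓞 K) (x : ℕ), Real.log (originalProduct α β x) =
      ∑ v ∈ Pool.Agent.N430.BP.Tx K x, Pool.Agent.N430.BP.lf v α β := by
    intro α β x
    rw [hprod, Real.log_prod fun v _ => (hfac v α β).ne']
    rfl
  simp only [hlog]
  set Exc := (Pool.Agent.N430.BP.BX n N).filter fun ω : Pool.Agent.N430.BP.Pt n =>
      ∃ x : ℕ, 16 ≤ x ∧ x ^ k ≤ N ∧
        l * Pool.Agent.N430.BP.gauge ε x <
          |∑ v ∈ Pool.Agent.N430.BP.Tx K x, Pool.Agent.N430.BP.lf v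
            (Pool.Agent.N430.BP.elA B (Pool.Agent.N430.BP.sh U ω))
            (Pool.Agent.N430.BP.elB B (Pool.Agent.N430.BP.sh U ω)) -
              1 / 2 * Real.log (Real.log x)| with hExc
  have hsub : {z : Fin n → ℤ × ℤ | (∀ j, (U j).1 < (z j).1 ∧ (z j).1 ≤ (U j).1 + N ∧
            (U j).2 < (z j).2 ∧ (z j).2 ≤ (U j).2 + N) ∧
          ∃ x : ℕ, 16 ≤ x ∧ x ^ k ≤ N ∧
            l * Real.log (Real.log x) ^ (1 / 2 : ℝ) *
              (1 + Real.log (Real.log (Real.log x))) ^ ε <
              |∑ v ∈ Pool.Agent.N430.BP.Tx K x, Pool.Agent.N430.BP.lf v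
                (∑ j, (z j).1 • B j) (∑ j, (z j).2 • B j) -
                1 / 2 * Real.log (Real.log x)|} ⊆
      ((Exc.image fun ω : Pool.Agent.N430.BP.Pt n => Pool.Agent.N430.BP.sh U ω :
        Finset (Fin n → ℤ × ℤ)) : Set (Fin n → ℤ × ℤ)) := by
    rintro z ⟨h1, x, hx16, hxN, hx⟩
    rw [Finset.coe_image, Set.mem_image]
    have ez : Pool.Agent.N430.BP.sh U
        (fun j => (((z j).1 - (U j).1).toNat, ((z j).2 - (U j).2).toNat)) = z := by
      funext j
      obtain ⟨g1, g2, g3, g4⟩ := h1 j
      unfold Pool.Agent.N430.BP.sh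
      refine Prod.ext ?_ ?_
      · show (U j).1 + (((z j).1 - (U j).1).toNat : ℤ) = (z j).1
        rw [Int.toNat_of_nonneg (by omega)]
        ring
      · show (U j).2 + (((z j).2 - (U j).2).toNat : ℤ) = (z j).2
        rw [Int.toNat_of_nonneg (by omega)]
        ring
    refine ⟨fun j => (((z j).1 - (U j).1).toNat, ((z j).2 - (U j).2).toNat), ?_, ez⟩
    rw [Finset.mem_coe, hExc, Finset.mem_filter, Pool.Agent.N430.BP.mem_BX]
    refine ⟨fun j => ?_, x, hx16, hxN, ?_⟩
    · obtain ⟨g1, g2, g3, g4⟩ := h1 j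
      dsimp only
      refine ⟨⟨by omega, by omega⟩, ⟨by omega, by omega⟩⟩
    · rw [ez]
      unfold Pool.Agent.N430.BP.gauge Pool.Agent.N430.BP.elA Pool.Agent.N430.BP.elB
      rw [← mul_assoc]
      exact hx
  have h5 := Set.ncard_le_ncard hsub (Finset.finite_toSet _)
  rw [Set.ncard_coe_finset] at h5
  have h6 := h5.trans Finset.card_image_le
  exact_mod_cast h6

end Pool.Agent.Results.MP_7cad78_nt.OriginalProductsNumberFields
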