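import Pool.Agent.N783.PF.Final

/-!
# Over every number field a positive proportion of all elliptic curves has rank zero

Let `F` be any number field. The family is the one of the problem: the pairs `(A, B)` of integers of `F`
with `4 A³ + 27 B² ≠ 0` such that no nonzero prime ideal `𝔭` has `𝔭⁴ ∣ A` and `𝔭⁶ ∣ B`, ordered by the
height `max_σ max (4 |σ A|³, 27 |σ B|²)`.

Theorem. `liminf δ_0(F; X) > 0`. More precisely there is `c > 0` (depending on `F`) such that for all large
`X` at least `c` times the number of all pairs of height at most `X` have a finite group `E(F)` of odd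
order.

The proof shows that the 2-Selmer group over `F` is zero for a positive proportion. We fix an integral
polynomial `f₀` with good local properties and consider the members `f` of the family which are congruent
to `f₀` modulo a fixed integer and, modulo the squares of certain rational primes `q ≡ 1 mod 4` (a
varying set `S` of about `log log` many), are close to a product of two coprime factors twisted by `q`;
the class of `q` times the idempotent of one factor is a class of the cohomology of `E[2]` ramified at one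
place. Bounding the number of the unramified classes by lattices with a self-adjoint operator
(Bhargava's parametrisation over `F`, reduction theory only, no geometry-of-numbers sieve), and using
quadratic reciprocity for the trace forms over `ℚ` as global input, we find for most of the `f` a subset
`J` of `S` such that the 2-Selmer group of the twist of `f` by the product of `J` is zero (linear algebra
over `F_2` and inclusion-exclusion over `J`). The twists, divided by the common factors, are minimal, and
every member of the family is counted boundedly often. No modularity, no `p`-adic methods.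

Project PF (helper783); the case `F = ℚ`, all genera, is `MP_a43263_nt.AllOddHyperelliptic`. Parts of the
proof by helpers 31, 42, 61, 73, 75, 78, 99, 134, 169, 170, 189, 195, 225, 255, 286, 331, 352, 364, 374,
426, 438, 456, 459, 482, 490, 545, 547, 591, 614, 645, 667, 674, 707, 710, 747, 771, 823, 849, 862, 935,
951, 999; the passage from the polynomial form of the Selmer group to cocycles (project QM of
helper874) by helpers 42, 187, 199, 459, 521, 530, 630, 713, 942.
-/

set_option autoImplicit false
set_option linter.all false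

namespace Pool.Agent.Results.MP_7cad78_nt.RankZeroEveryNumberField

open Filter NumberField
open scoped Classical

section defs

variable (F : Type) [Field F] [NumberField F]

/-- The family of the problem: pairs of integers `(A, B)` with `4 A ^ 3 + 27 B ^ 2 ≠ 0` for which no
nonzero prime ideal `𝔭` satisfies both `𝔭 ^ 4 ∣ A` and `𝔭 ^ 6 ∣ B`. -/
def Family : Set (𝓞 F × 𝓞 F) :=
  {p | 4 * p.1 ^ 3 + 27 * p.2 ^ 2 ≠ 0 ∧
    ∀ 𝔭 : Ideal (𝓞 F), 𝔭.IsPrime → 𝔭 ≠ ⊥ → ¬ (p.1 ∈ 𝔭 ^ 4 ∧ p.2 ∈ 𝔭 ^ 6)}

variable {F}

/-- The height `max_σ max (4 |σ A|³, 27 |σ B|²)`, over the embeddings `σ : F → ℂ`. -/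
noncomputable def height (p : 𝓞 F × 𝓞 F) : ℝ :=
  ⨆ σ : F →+* ℂ, max (4 * ‖σ (p.1 : F)‖ ^ 3) (27 * ‖σ (p.2 : F)‖ ^ 2)

/-- The curve `y ^ 2 = x ^ 3 + A x + B` over `F`. -/
def curve (p : 𝓞 F × 𝓞 F) : WeierstrassCurve F := ⟨0, 0, 0, (p.1 : F), (p.2 : F)⟩

/-- The group of the points over `F`. -/
abbrev points (p : 𝓞 F × 𝓞 F) : Type := (curve p).toAffine.Point

/-- The rank of the group of the points over `F`. -/
noncomputable def rank (p : 𝓞 F × 𝓞 F) : ℕ := Module.finrank ℤ (points p)

variable (F)

/-- The members of the family of height at most `X`. -/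
def UpTo (X : ℝ) : Set (𝓞 F × 𝓞 F) := {p ∈ Family F | height p ≤ X}

/-- The proportion of the rank `r`. -/
noncomputable def δ (r : ℕ) (X : ℝ) : ℝ :=
  ({p ∈ UpTo F X | rank p = r}.ncard : ℝ) / ((UpTo F X).ncard : ℝ)

end defs

theorem crv_iff {F : Type} [Field F] [NumberField F] (X : ℝ) (p : 𝓞 F × 𝓞 F) :
    Pool.Agent.N783.PF.Crv X p ↔ p ∈ UpTo F X := by
  have hb : BddAbove (Set.range fun σ : F →+* ℂ =>
      max (4 * ‖σ (p.1 : F)‖ ^ 3) (27 * ‖σ (p.2 : F)‖ ^ 2)) := Set.Finite.bddAbove (Set.finite_range _)
  constructor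
  · rintro ⟨h1, h2, h3⟩
    refine ⟨⟨h1, h2⟩, ciSup_le fun σ => max_le (h3 σ).1 (h3 σ).2⟩
  · rintro ⟨⟨h1, h2⟩, h3⟩
    refine ⟨h1, h2, fun σ => ?_⟩
    have h4 := (le_ciSup hb σ).trans h3
    exact ⟨(le_max_left _ _).trans h4, (le_max_right _ _).trans h4⟩

theorem rank_zero {F : Type} [Field F] [NumberField F] (p : 𝓞 F × 𝓞 F) (h : Finite (points p)) :
    rank p = 0 := by
  unfold rank
  haveI := h
  refine Module.finrank_eq_zero_of_rank_eq_zero ?_
  rw [rank_eq_zero_iff]
  intro x
  refine ⟨(Nat.card (points p) : ℤ), by exact_mod_cast Nat.card_pos.ne', ?_⟩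
  rw [natCast_zsmul]
  exact card_nsmul_eq_zero'

/-- **Rank zero over every number field.** For every number field `F` a positive proportion of all the
members of the family of height at most `X` has finite `E(F)` of odd order; in particular
`liminf δ_0(F; X) > 0`. -/
theorem result (F : Type) [Field F] [NumberField F] :
    (∀ X : ℝ, (UpTo F X).Finite) ∧
    (∃ c : ℝ, 0 < c ∧ ∀ᶠ X : ℝ in atTop,
      0 < (UpTo F X).ncard ∧
      c * ((UpTo F X).ncard : ℝ) ≤
        ({p ∈ UpTo F X | Finite (points p) ∧ Odd (Nat.card (points p))}.ncard : ℝ) ∧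
      c ≤ δ F 0 X) ∧
    0 < liminf (δ F 0) atTop := by
  have hset : ∀ X : ℝ, UpTo F X = {p : 𝓞 F × 𝓞 F | Pool.Agent.N783.PF.Crv X p} := by
    intro X
    ext p
    exact (crv_iff X p).symm
  obtain ⟨c, hc, Y₀, h⟩ := Pool.Agent.N783.PF.fin1 F
  have hfin : ∀ X : ℝ, (UpTo F X).Finite := fun X => by
    rw [hset]
    exact (h X).1
  have hev : ∀ᶠ X : ℝ in atTop,
      0 < (UpTo F X).ncard ∧
      c * ((UpTo F X).ncard : ℝ) ≤
        ({p ∈ UpTo F X | Finite (points p) ∧ Odd (Nat.card (points p))}.ncard : ℝ) ∧
      c ≤ δ F 0 X := by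
    filter_upwards [eventually_ge_atTop Y₀] with X hX
    obtain ⟨h1, h2⟩ := (h X).2 hX
    rw [← hset] at h1 h2
    have h3 : {p : 𝓞 F × 𝓞 F | Pool.Agent.N783.PF.Crv X p ∧ Pool.Agent.N783.PF.Good p} ⊆
        {p ∈ UpTo F X | Finite (points p) ∧ Odd (Nat.card (points p))} := by
      rintro p ⟨hp, hg⟩
      refine ⟨(crv_iff X p).1 hp, ?_, ?_⟩
      · exact hg.fin
      · exact hg.odd
    have h4 := Set.ncard_le_ncard h3 ((hfin X).subset fun p hp => hp.1)
    have h5 : {p ∈ UpTo F X | Finite (points p) ∧ Odd (Nat.card (points p))} ⊆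
        {p ∈ UpTo F X | rank p = 0} := fun p hp => ⟨hp.1, rank_zero p hp.2.1⟩
    have h6 := Set.ncard_le_ncard h5 ((hfin X).subset fun p hp => hp.1)
    have h7 : c * ((UpTo F X).ncard : ℝ) ≤
        ({p ∈ UpTo F X | Finite (points p) ∧ Odd (Nat.card (points p))}.ncard : ℝ) :=
      h2.trans (by exact_mod_cast h4)
    refine ⟨h1, h7, ?_⟩
    unfold δ
    rw [le_div_iff₀ (by exact_mod_cast h1)]
    exact h7.trans (by exact_mod_cast h6)
  refine ⟨hfin, ⟨c, hc, hev⟩, ?_⟩
  refine lt_of_lt_of_le hc (Filter.le_liminf_of_le ?_ (hev.mono fun X hX => hX.2.2))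
  refine Filter.IsBoundedUnder.isCoboundedUnder_ge ?_
  refine Filter.isBoundedUnder_of ⟨1, fun X => ?_⟩
  unfold δ
  refine div_le_one_of_le₀ ?_ (Nat.cast_nonneg _)
  exact_mod_cast Set.ncard_le_ncard (s := {p ∈ UpTo F X | rank p = 0}) (fun p hp => hp.1) (hfin X)

end Pool.Agent.Results.MP_7cad78_nt.RankZeroEveryNumberField
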