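import Mathlib
import Pool.Agent.N873.MF.Tr
import Pool.Agent.N873.MF.CHR

/-!
# Rank zero over real multiquadratic fields, simultaneously for the twists of many elliptic curves:
exact natural densities

Let `F` be a finite set of pairs `(a, b)` of coprime integers, `a` odd, `b ≠ 0` even. For every pair `c = (a, b)` and
every `n`, `E K n c` is the curve `y² = (x + 3 n (a² + b²)) (x - 3 n (2 a² - b²)) (x - 3 n (2 b² - a²))`, which is
isomorphic to `y² = x (x - n a²) (x - n b²)`, the quadratic twist by `-n` of the curve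
`y² = x (x + a²) (x + b²)`, which has a rational subgroup `Z/2 x Z/4`; here over a number field `K`. We consider

* the set `N F` of the twists: the squarefree `n ≡ 3` modulo `8` such that, for all the pairs of `F`, `-n` is not a
  nonzero square modulo the odd primes dividing `a b` and `n` is not one modulo the odd primes dividing
  `a² - b²`; it has positive lower density;
* the set `Disc F` of the squarefree `d ≡ 1` modulo `8` which are nonzero squares modulo all these primes, and the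
  real fields `K = ℚ(√d_1, …, √d_r)` of degree `2 ^ r`, for all `r`.

For `n` in `N F` let `R_T` be the 4-rank of the class group of `ℚ(√(-n d_T))`, `d_T = ∏_{i ∈ T} d_i`. Then

(1) the rank over `K` of all the curves of `F` is at most `2 ∑ R_T`; if all the `R_T` are zero (`n` is good) then all
the curves of `F` have finitely many points over `K`, and the 2-primary part of `Ш` over `K` is finite, killed
by `2 ^ r`; `n` is good if and only if the `2 ^ r` curves over `ℚ` which are isomorphic to the curve over `K` have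
finitely many rational points and no element of 2-power order in `Ш`, whatever the pair.
(2) *fixed field*: the natural density of the good `n` in `N F` is exactly `η ^ [K : ℚ]`,
`η = ∏ (1 - 2^(-i)) = 0.288…`. It does not depend on the number of the curves.
(3) *fixed curves, varying field*: if `n` is good for `K` then the natural density of the `D` in `Disc F` such that `n` is
good for `K(√D)` is exactly `η ^ [K : ℚ]`.
(4) *towers*: if `n` is good for `ℚ` there is a sequence `D_1 < D_2 < ⋯` in `Disc F` such that `n` is good for all the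
fields `ℚ(√D_1, …, √D_k)`, of degree `2 ^ k`.

Parts by helpers 97, 136, 273, 368, 482, 519, 588, 603, 614, 615, 700, 747, 756, 767, 776, 873, 887, 891, 966, 973; the
joint law of the class groups is due to helper856 and his coauthors (`Pool/Agent/N856/JM`).
-/

set_option autoImplicit false

open NumberField Filter Topology

namespace Pool.Agent.Results.MP_7cad78_nt.TwistsOverMultiquadraticFields

open Pool.Agent.TH841.SH.D (Sha)

/-- the pairs -/
def Pair (c : ℤ × ℤ) : Prop := IsCoprime c.1 c.2 ∧ Odd c.1 ∧ Even c.2 ∧ c.2 ≠ 0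

/-- `m` is a nonzero square modulo `p` -/
def NzSq (p : ℕ) (m : ℤ) : Prop := (m : ZMod p) ≠ 0 ∧ IsSquare (m : ZMod p)

/-- the numbers of the twists -/
def N (F : Finset (ℤ × ℤ)) (n : ℕ) : Prop := Squarefree n ∧ n % 8 = 3 ∧
  ∀ c ∈ F, ∀ p : ℕ, p.Prime → p ≠ 2 → ((p : ℤ) ∣ c.1 * c.2 → ¬ NzSq p (-n)) ∧
    ((p : ℤ) ∣ c.1 ^ 2 - c.2 ^ 2 → ¬ NzSq p n)

/-- the discriminants -/
def Disc (F : Finset (ℤ × ℤ)) (d : ℕ) : Prop := Squarefree d ∧ d % 8 = 1 ∧
  ∀ c ∈ F, ∀ p : ℕ, p.Prime → p ≠ 2 → ((p : ℤ) ∣ c.1 * c.2 ∨ (p : ℤ) ∣ c.1 ^ 2 - c.2 ^ 2) → NzSq p d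

/-- the coefficient `A` of `y² = x³ + A x + B` -/
def A (n : ℤ) (c : ℤ × ℤ) : ℤ := -27 * (c.1 ^ 4 - c.1 ^ 2 * c.2 ^ 2 + c.2 ^ 4) * n ^ 2

/-- the coefficient `B` of `y² = x³ + A x + B` -/
def B (n : ℤ) (c : ℤ × ℤ) : ℤ :=
  27 * (c.1 ^ 2 + c.2 ^ 2) * (2 * c.1 ^ 2 - c.2 ^ 2) * (2 * c.2 ^ 2 - c.1 ^ 2) * n ^ 3

/-- the curve over the field `K` -/
def E (K : Type) [Field K] (n : ℤ) (c : ℤ × ℤ) : WeierstrassCurve K :=
  { a₁ := 0, a₂ := 0, a₃ := 0, a₄ := (A n c : K), a₆ := (B n c : K) }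

open Classical in
/-- the rank over `K` -/
noncomputable def rank (K : Type) [Field K] (n : ℤ) (c : ℤ × ℤ) : ℕ :=
  Module.finrank ℤ (E K n c).toAffine.Point

/-- `ℚ(√d_1, …, √d_r)` has degree `2 ^ r` -/
def Independent {r : ℕ} (d : Fin r → ℕ) : Prop :=
  ∀ T : Finset (Fin r), T.Nonempty → ¬ IsSquare (∏ i ∈ T, d i)

/-- `K = ℚ(√d_1, …, √d_r)` -/
def IsMultiquadratic {r : ℕ} (d : Fin r → ℕ) (K : Type) [Field K] [NumberField K] : Prop :=
  ∃ x : Fin r → K, (∀ i, x i ^ 2 = (d i : K)) ∧ IntermediateField.adjoin ℚ (Set.range x) = ⊤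

/-- the number of the squares of the ideal classes whose order divides four: `2 ^ R`, where `R` is the
4-rank of the class group -/
noncomputable def twoFour (K : Type) [Field K] [NumberField K] : ℕ :=
  Nat.card {y : ClassGroup (𝓞 K) // ∃ x : ClassGroup (𝓞 K), x ^ 4 = 1 ∧ x ^ 2 = y}

/-- the 4-rank of the class group of `ℚ(√-m)` is `R` -/
def FourRank (m R : ℕ) : Prop := ∀ (K : Type) [Field K] [NumberField K], Module.finrank ℚ K = 2 →
  (∃ s : K, s ^ 2 = -(m : K)) → twoFour K = 2 ^ R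

/-- `n` is good for `ℚ(√d_1, …, √d_r)`: the `2 ^ r` imaginary quadratic fields `ℚ(√(-n d_T))` have no ideal class
of order four -/
def Good {r : ℕ} (d : Fin r → ℕ) (n : ℕ) : Prop := ∀ T : Finset (Fin r), FourRank (n * ∏ i ∈ T, d i) 0

/-- finitely many rational points and no element of 2-power order in `Ш` -/
def Trivial (W : WeierstrassCurve ℚ) : Prop := Finite W.toAffine.Point ∧
  ∀ (k : ℕ) (x : Sha W), (2 ^ k : ℕ) • x = 0 → x = 0

open Classical in
/-- finitely many points over `K`; the 2-primary part of `Ш` over `K` is finite, killed by `2 ^ r` -/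
def Finiteness (K : Type) [Field K] [NumberField K] (n : ℤ) (c : ℤ × ℤ) (r : ℕ) : Prop :=
  Finite (E K n c).toAffine.Point ∧
  {y : Pool.Agent.TH841.NF.D.Sha (E K n c) | ∃ k : ℕ, (2 ^ k : ℕ) • y = 0}.Finite ∧
  ∀ (k : ℕ) (y : Pool.Agent.TH841.NF.D.Sha (E K n c)), (2 ^ k : ℕ) • y = 0 → (2 ^ r : ℕ) • y = 0

/-- the limit `(1 - 1/2) (1 - 1/4) (1 - 1/8) ⋯` -/
noncomputable def eta : ℝ := ∏' i : ℕ, (1 - (1 / 2 : ℝ) ^ (i + 1))

open Classical in
/-- the number of the `m ≤ X` with the property `P` -/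
noncomputable def count (P : ℕ → Prop) (X : ℕ) : ℕ := ((Finset.Icc 1 X).filter fun m => P m).card

/-- among the numbers with the property `P`, those with the property `Q` have natural density `δ` -/
def HasDensity (P Q : ℕ → Prop) (δ : ℝ) : Prop :=
  Tendsto (fun X : ℕ => (count (fun m => P m ∧ Q m) X : ℝ) / (count P X : ℝ)) atTop (𝓝 δ)

section proof

open Pool.Agent.N873.UT (NF Pr Adm parts2)
open Pool.Agent.N873.MF (Dc Gd EK cA cB parts gd_iff triv_prod rank_le nf_prod pos_prod dens_n dens_D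
  tower dc_gt fr_sfp fr_iff t_CHR)
open Pool.Agent.N969.P15 (Qc)
open Pool.Agent.N856.JL (sfp sfp_self)

lemma pair_iff (c : ℤ × ℤ) : Pair c ↔ Pr c := by
  unfold Pair Pr
  rw [Int.odd_iff, Int.even_iff]

lemma nz_iff (p : ℕ) (hp : p.Prime) (m : ℤ) : NzSq p m ↔ jacobiSym m p = 1 := by
  have : Fact p.Prime := ⟨hp⟩
  unfold NzSq
  rw [← jacobiSym.legendreSym.to_jacobiSym]
  constructor
  · rintro ⟨h1, h2⟩
    exact (legendreSym.eq_one_iff p h1).2 h2
  · intro h
    have h1 : (m : ZMod p) ≠ 0 := by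
      intro h0
      rw [(legendreSym.eq_zero_iff p m).2 h0] at h
      exact absurd h (by norm_num)
    exact ⟨h1, (legendreSym.eq_one_iff p h1).1 h⟩

lemma N_iff {F : Finset (ℤ × ℤ)} (hF : ∀ c ∈ F, Pair c) (n : ℕ) : N F n ↔ n ∈ NF F := by
  constructor
  · rintro ⟨h1, h2, h3⟩
    refine ⟨h1, h2, fun c hc => ?_⟩
    obtain ⟨k1, k2, k3, k4⟩ := (pair_iff c).1 (hF c hc)
    exact ⟨h1, h2, k1, k2, k3, k4,
      fun p hp hp2 hd h => (h3 c hc p hp hp2).1 hd ((nz_iff p hp _).2 h),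
      fun p hp hp2 hd h => (h3 c hc p hp hp2).2 hd ((nz_iff p hp _).2 h)⟩
  · rintro ⟨h1, h2, h3⟩
    refine ⟨h1, h2, fun c hc p hp hp2 => ⟨fun hd h => ?_, fun hd h => ?_⟩⟩
    · exact (h3 c hc).ab p hp hp2 hd ((nz_iff p hp _).1 h)
    · exact (h3 c hc).dd p hp hp2 hd ((nz_iff p hp _).1 h)

lemma D_iff (F : Finset (ℤ × ℤ)) (d : ℕ) : Disc F d ↔ Dc F d := by
  unfold Disc Dc
  refine and_congr_right fun _ => and_congr_right fun _ => forall_congr' fun c =>
    forall_congr' fun _ => forall_congr' fun p => forall_congr' fun hp => forall_congr' fun _ =>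
    forall_congr' fun _ => ?_
  exact nz_iff p hp d

lemma good_iff {F : Finset (ℤ × ℤ)} (hF : ∀ c ∈ F, Pair c) {r : ℕ} {d : Fin r → ℕ}
    (hd : ∀ i, Disc F (d i)) {n : ℕ} (hn : N F n) : Good d n ↔ Gd d n := by
  refine forall_congr' fun T => ?_
  exact gd_iff (fun c hc => (pair_iff c).1 (hF c hc)) (fun i => (D_iff F _).1 (hd i))
    ((N_iff hF n).1 hn) T

lemma dens_iff' {P P' Q Q' : ℕ → Prop} {δ : ℝ} (hP : ∀ m, P m ↔ P' m) (hQ : ∀ m, P m → (Q m ↔ Q' m))
    (h : Pool.Agent.N856.JL.Av.HasDensity P Q δ) : HasDensity P' Q' δ := by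
  have e1 : P = P' := funext fun m => propext (hP m)
  subst e1
  have e2 : (fun m => P m ∧ Q m) = fun m => P m ∧ Q' m :=
    funext fun m => propext (and_congr_right fun h => hQ m h)
  unfold Pool.Agent.N856.JL.Av.HasDensity at h
  unfold HasDensity
  rw [← e2]
  exact h

/-- primes in `Disc F` -/
lemma fields {F : Finset (ℤ × ℤ)} (hF : ∀ c ∈ F, Pr c) (r : ℕ) :
    ∃ d : Fin r → ℕ, (∀ i, Dc F (d i)) ∧ Independent d := by
  obtain ⟨f, hf1, hf2⟩ := exists_seq_of_forall_finset_exists (fun x : ℕ => x.Prime ∧ Dc F x)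
    (fun x y => x < y) (fun s hs => by
      obtain ⟨n, h3, h4, h5⟩ := dc_gt F hF (∑ x ∈ s, x)
      refine ⟨n, ⟨h4, h5⟩, fun x hx => ?_⟩
      have := Finset.single_le_sum (f := fun x : ℕ => x) (fun _ _ => Nat.zero_le _) hx
      omega)
  have hmono : StrictMono f := fun a b hab => hf2 a b hab
  refine ⟨fun i => f i, fun i => (hf1 i).2, fun T hT hsq => ?_⟩
  obtain ⟨k, hk⟩ := hT
  obtain ⟨u, hu⟩ := hsq
  rw [← Finset.insert_erase hk, Finset.prod_insert (Finset.notMem_erase k T)] at hu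
  have hp := (hf1 k).1
  have h1 : f k ∣ u * u := ⟨_, hu.symm⟩
  have h2 : f k ∣ u := by
    rcases hp.dvd_mul.1 h1 with h | h <;> exact h
  obtain ⟨v, rfl⟩ := h2
  have h3 : ∏ i ∈ T.erase k, f i = f k * (v * v) := by
    refine Nat.eq_of_mul_eq_mul_left hp.pos ?_
    rw [hu]
    ring
  have h4 : f k ∣ ∏ i ∈ T.erase k, f i := ⟨_, h3⟩
  obtain ⟨j, hj, h5⟩ := (hp.prime.dvd_finsetProd_iff _).1 h4
  have h6 := (Nat.prime_dvd_prime_iff_eq hp (hf1 j).1).1 h5
  have h7 := hmono.injective h6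
  exact Finset.ne_of_mem_erase hj (Fin.ext h7.symm)

open Classical in
/-- **The theorem.** -/
theorem result (F : Finset (ℤ × ℤ)) (hF : ∀ c ∈ F, Pair c) :
    -- the twists and the fields
    (∃ δ : ℝ, 0 < δ ∧ ∀ᶠ X : ℕ in atTop, δ * X ≤ count (N F) X) ∧
    (∀ r : ℕ, ∃ d : Fin r → ℕ, (∀ i, Disc F (d i)) ∧ Independent d) ∧
    (∀ (r : ℕ) (d : Fin r → ℕ), (∀ i, Disc F (d i)) → Independent d →
      -- the curves over the field
      (∀ n : ℕ, N F n → ∀ (K : Type) [Field K] [NumberField K], IsMultiquadratic d K →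
        Module.finrank ℚ K = 2 ^ r ∧ ∀ c ∈ F,
          (∀ R : Finset (Fin r) → ℕ, (∀ T, FourRank (n * ∏ i ∈ T, d i) (R T)) →
            rank K n c ≤ 2 * ∑ T, R T) ∧
          (Good d n → rank K n c = 0 ∧ Finiteness K n c r) ∧
          (Good d n ↔ ∀ T : Finset (Fin r), Trivial (E ℚ ((n * ∏ i ∈ T, d i : ℕ) : ℤ) c))) ∧
      -- fixed field
      HasDensity (N F) (Good d) (eta ^ 2 ^ r) ∧
      -- fixed curves, varying field
      (∀ n : ℕ, N F n → Good d n →
        HasDensity (Disc F) (fun D => Good (Fin.snoc d D : Fin (r + 1) → ℕ) n) (eta ^ 2 ^ r))) ∧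
    -- towers
    (∀ n : ℕ, N F n → FourRank n 0 → ∃ D : ℕ → ℕ, StrictMono D ∧ (∀ j, Disc F (D j)) ∧
      ∀ k : ℕ, Independent (fun i : Fin k => D i) ∧ Good (fun i : Fin k => D i) n) := by
  have hF' : ∀ c ∈ F, Pr c := fun c hc => (pair_iff c).1 (hF c hc)
  have hDc : ∀ {r : ℕ} {d : Fin r → ℕ}, (∀ i, Disc F (d i)) → ∀ i, Dc F (d i) :=
    fun h i => (D_iff F _).1 (h i)
  refine ⟨?_, fun r => ?_, fun r d hd hi => ⟨fun n hn K _ _ hK => ?_, ?_, fun n hn hg => ?_⟩,
    fun n hn hQ => ?_⟩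
  · obtain ⟨δ, hδ, X₁, hlow⟩ := parts2.p.low F hF'
    refine ⟨δ, hδ, eventually_atTop.2 ⟨X₁, fun X hX => ?_⟩⟩
    have e : N F = fun n => n ∈ NF F := funext fun n => propext (N_iff hF n)
    rw [e]
    exact hlow X hX
  · obtain ⟨d, h1, h2⟩ := fields hF' r
    exact ⟨d, fun i => (D_iff F _).2 (h1 i), h2⟩
  · have hn' := (N_iff hF n).1 hn
    have hd0 : ∀ i, 0 < d i := fun i => Nat.pos_of_ne_zero (hd i).1.ne_zero
    have hn0 : 0 < n := Nat.pos_of_ne_zero hn.1.ne_zero
    obtain ⟨x, hx, hgen⟩ := hK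
    refine ⟨(t_CHR r d hd0 hi K x hx hgen).2.1, fun c hc => ?_⟩
    have hadm : ∀ T : Finset (Fin r), Adm (sfp (n * ∏ i ∈ T, d i)) c.1 c.2 := fun T =>
      (nf_prod parts hF' (hDc hd) hn' T).2.2 c hc
    obtain ⟨h1, h2⟩ := parts.fld c (hF' c hc) n r d hn0 hd0 hadm K x hx hgen
    refine ⟨fun R hR => ?_, fun hg => ?_, ?_⟩
    · refine h1.trans ?_
      rw [Finset.mul_sum]
      refine Finset.sum_le_sum fun T _ => rank_le (hadm T) ?_
      exact (fr_sfp (Nat.mul_pos hn0 (pos_prod (hDc hd) T)) (R T)).1 (hR T)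
    · have hg' := (good_iff hF hd hn).1 hg
      have h3 := h2 fun T => (Pool.Agent.N873.UT.triv_iff parts2.p (hadm T)).2 (hg' T)
      refine ⟨?_, h3⟩
      have h4 := h3.1
      unfold rank
      exact Module.finrank_eq_zero_of_rank_eq_zero (rank_eq_zero_iff.2 fun y =>
        ⟨Nat.card (EK K n c).toAffine.Point, by
          exact_mod_cast (Nat.card_pos (α := (EK K n c).toAffine.Point)).ne',
          by
            have := card_nsmul_eq_zero' (G := (EK K n c).toAffine.Point) (x := y)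
            exact_mod_cast this⟩)
    · rw [good_iff hF hd hn]
      refine forall_congr' fun T => ?_
      exact (triv_prod hF' (hDc hd) hn' T hc).symm
  · exact dens_iff' (fun n => (N_iff hF n).symm) (fun n hn =>
      (good_iff hF hd ((N_iff hF n).2 hn)).symm) (dens_n parts hF' (hDc hd) hi)
  · refine dens_iff' (fun D => (D_iff F D).symm) (fun D hD => ?_)
      (dens_D parts hF' (hDc hd) hi ((N_iff hF n).1 hn) ((good_iff hF hd hn).1 hg))
    refine (good_iff hF (fun i => ?_) hn).symm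
    refine Fin.lastCases ?_ (fun j => ?_) i
    · rw [Fin.snoc_last]
      exact (D_iff F D).2 hD
    · rw [Fin.snoc_castSucc]
      exact hd j
  · have hn' := (N_iff hF n).1 hn
    have h4 : n % 4 = 3 := by
      have := hn.2.1
      omega
    obtain ⟨D, h1, h2, h3, h5⟩ := tower parts hF' hn' ((fr_iff hn.1 h4).1 hQ)
    refine ⟨D, h1, fun j => (D_iff F _).2 (h2 j), fun k => ?_⟩
    have e : ∀ T : Finset (Fin k), ∏ i ∈ T, D (i : ℕ) = ∏ i ∈ T.map Fin.valEmbedding, D i := fun T => by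
      rw [Finset.prod_map]
      rfl
    refine ⟨fun T hT => ?_, ?_⟩
    · rw [e]
      exact h3 _ ((Finset.map_nonempty).2 hT)
    · refine (good_iff hF (fun i => (D_iff F _).2 (h2 i)) hn).2 fun T => ?_
      rw [e]
      exact h5 _

end proof

end Pool.Agent.Results.MP_7cad78_nt.TwistsOverMultiquadraticFields
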